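import Pool.Agent.N343.AM.Stm

/-!
# AM/EMB (helper374 for helper343): words of a level occur everywhere
-/

set_option autoImplicit false

namespace Pool.Agent.N374.AM.EMB

open Pool.Agent.N343.AM

theorem star_nil (W : Set Wd) : ([] : Wd) ∈ star W := ⟨[], by simp, by simp⟩

theorem star_append {W : Set Wd} {a b : Wd} (ha : a ∈ star W) (hb : b ∈ star W) :
    a ++ b ∈ star W := by
  obtain ⟨l, hl, rfl⟩ := ha
  obtain ⟨l', hl', rfl⟩ := hb
  refine ⟨l ++ l', ?_, (List.flatten_append).symm⟩
  intro w hw
  rcases List.mem_append.1 hw with h | h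
  · exact hl w h
  · exact hl' w h

theorem star_of_mem {W : Set Wd} {w : Wd} (h : w ∈ W) : w ∈ star W :=
  ⟨[w], by simpa using h, by simp⟩

theorem star_sub {W W' : Set Wd} (h : ∀ w ∈ W', w ∈ star W) : ∀ s ∈ star W', s ∈ star W := by
  rintro s ⟨l, hl, rfl⟩
  induction l with
  | nil => simpa using star_nil W
  | cons w l ih =>
    rw [List.flatten_cons]
    exact star_append (h w (hl w (by simp)))
      (ih (fun w' hw' => hl w' (List.mem_cons_of_mem _ hw')))

theorem fac_sub {W W' : Set Wd} (h : ∀ s ∈ star W', s ∈ star W) : ∀ v ∈ Fac W', v ∈ Fac W := by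
  rintro v ⟨a, b, hab⟩
  exact ⟨a, b, h _ hab⟩

theorem fac_inf {W : Set Wd} {v s : Wd} (hs : s ∈ star W) (h : v <:+: s) : v ∈ Fac W := by
  obtain ⟨a, b, hab⟩ := h
  exact ⟨a, b, by rw [hab]; exact hs⟩

theorem head {W : Set Wd} {s : Wd} (hs : s ∈ star W) (hne : 1 ≤ s.length) :
    ∃ w ∈ W, w <+: s := by
  obtain ⟨l, hl, rfl⟩ := hs
  cases l with
  | nil => simp at hne
  | cons w l =>
    refine ⟨w, hl w (by simp), ?_⟩
    rw [List.flatten_cons]
    exact List.prefix_append _ _

section

variable {W : ℕ → Set Wd} {P : ℕ → Wd} {m : ℕ → ℕ}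

theorem step (S : Sys W P m) (k : ℕ) : ∀ w ∈ W (k + 1), w ∈ star (W k) := by
  intro w hw
  rw [S.nx k] at hw
  obtain ⟨_, v, hv, rfl⟩ := hw
  exact star_append (S.ps k) hv

theorem star_le (S : Sys W P m) {j k : ℕ} (h : j ≤ k) : ∀ s ∈ star (W k), s ∈ star (W j) := by
  induction k, h using Nat.le_induction with
  | base => exact fun s hs => hs
  | succ k _ ih => exact fun s hs => ih s (star_sub (step S k) s hs)

theorem lenP (S : Sys W P m) (k : ℕ) : m k ≤ (P k).length := by
  obtain ⟨w, hw, hlen⟩ := (S.lv k).ex0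
  have := (S.pw k w hw).length_le
  omega

theorem pre1 (S : Sys W P m) (k : ℕ) (u : Wd) (hu : u ∈ W (k + 1)) : P k <+: u := by
  rw [S.nx k] at hu
  obtain ⟨_, v, _, rfl⟩ := hu
  exact List.prefix_append _ _

theorem preP (S : Sys W P m) (k : ℕ) : P k <+: P (k + 1) := by
  have h1 := lenP S (k + 1)
  have h2 := (S.lv (k + 1)).m1
  obtain ⟨w, hw, hp⟩ := head (S.ps (k + 1)) (by omega)
  exact (pre1 S k w hw).trans hp

theorem grow (S : Sys W P m) (k : ℕ) : 16 * DD (P k) (m k) ≤ m (k + 1) := by
  refine le_trans ?_ (S.gr k)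
  apply Nat.mul_le_mul_right
  calc 16 = 2 ^ 4 := by norm_num
    _ ≤ 2 ^ (k + 4) := Nat.pow_le_pow_right (by norm_num) (by omega)

theorem ltP (S : Sys W P m) (k : ℕ) : (P k).length < (P (k + 1)).length := by
  have h1 := lenP S (k + 1)
  have h2 := grow S k
  unfold DD at h2
  omega

theorem geP (S : Sys W P m) (k : ℕ) : k ≤ (P k).length := by
  induction k with
  | zero => exact Nat.zero_le _
  | succ k ih =>
    have := ltP S k
    omega

theorem preLe (S : Sys W P m) {j k : ℕ} (h : j ≤ k) : P j <+: P k := by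
  induction k, h using Nat.le_induction with
  | base => exact List.prefix_refl _
  | succ k _ ih => exact ih.trans (preP S k)

theorem pre_get {p q : Wd} (h : p <+: q) (i : ℕ) (hi : i < p.length) : q[i]? = p[i]? := by
  obtain ⟨r, rfl⟩ := h
  exact List.getElem?_append_left hi

/-- the limit sequence -/
def lim (P : ℕ → Wd) (i : ℕ) : Bool := (P (i + 1)).getD i false

theorem lim_get (S : Sys W P m) (k i : ℕ) (hi : i < (P k).length) : (P k)[i]? = some (lim P i) := by
  have h0 : i < (P (i + 1)).length := by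
    have := geP S (i + 1)
    omega
  have h1 : (P (i + 1))[i]? = some (lim P i) := by
    unfold lim
    rw [List.getD_eq_getElem?_getD, List.getElem?_eq_getElem h0]
    rfl
  rw [← h1]
  rcases le_total (i + 1) k with h | h
  · exact pre_get (preLe S h) i h0
  · exact (pre_get (preLe S h) i hi).symm

theorem win_lim (S : Sys W P m) (k p n : ℕ) (h : p + n ≤ (P k).length) :
    win (fun i => lim P (p + i)) 0 n = ((P k).drop p).take n := by
  unfold win
  apply List.ext_getElem?
  intro j
  rw [List.getElem?_map, List.getElem?_take, List.getElem?_drop]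
  by_cases hj : j < n
  · rw [if_pos hj, List.getElem?_range hj, lim_get S k (p + j) (by omega)]
    simp
  · rw [if_neg hj, List.getElem?_eq_none (by simpa using hj)]
    rfl

end

theorem main (hF : S_FRO) (hC : S_CUT) : S_EMB := by
  intro W P m S l v hv h2v
  obtain ⟨a, b, ha, hb, ht⟩ := (hC (W l) (m l) (S.lv l)).2.2.2 v hv
  have hg := grow S l
  unfold DD at hg
  have hlen : (a ++ v ++ b).length = a.length + v.length + b.length := by
    simp [List.length_append, Nat.add_assoc]
  obtain ⟨n, hn⟩ : ∃ n, n = m (l + 1) - (P l).length - (a ++ v ++ b).length := ⟨_, rfl⟩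
  obtain ⟨F, hFs, hFl⟩ := hF (W l) (m l) (S.lv l) n (by rw [hn, hlen]; omega)
  have hu0 : P l ++ ((a ++ v ++ b) ++ F) ∈ W (l + 1) := by
    rw [S.nx l]
    refine ⟨Or.inl ?_, _, star_append ht hFs, rfl⟩
    rw [List.length_append, List.length_append, hFl, hn, hlen]
    omega
  have hvu0 : v <:+: P l ++ ((a ++ v ++ b) ++ F) := ⟨P l ++ a, b ++ F, by simp [List.append_assoc]⟩
  have hvP : v <:+: P (l + 1) := hvu0.trans (S.pw (l + 1) _ hu0)
  have h3 : ∀ u ∈ W (l + 2), v <:+: u := fun u hu =>
    hvP.trans (pre1 S (l + 1) u hu).isInfix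
  refine ⟨?_, ?_, h3⟩
  · intro k
    rcases le_total k (l + 1) with h | h
    · exact fac_sub (star_le S h) v (fac_inf (star_of_mem hu0) hvu0)
    · rcases Nat.eq_or_lt_of_le h with h | h
      · rw [← h]
        exact fac_inf (star_of_mem hu0) hvu0
      · obtain ⟨u, hu, hul⟩ := (S.lv k).ex0
        have hus : u ∈ star (W k) := star_of_mem hu
        have hus' : u ∈ star (W (l + 2)) := star_le S h u hus
        obtain ⟨w, hw, hp⟩ := head hus' (by have := (S.lv k).m1; omega)
        exact fac_inf hus ((h3 w hw).trans hp.isInfix)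
  · obtain ⟨s, t, hst⟩ := hvP
    refine ⟨fun i => lim P (s.length + i), ?_, ?_⟩
    · intro n k
      have hk1 := geP S (max k (s.length + n))
      have hk2 : s.length + n ≤ max k (s.length + n) := le_max_right _ _
      rw [win_lim S (max k (s.length + n)) s.length n (by omega)]
      apply fac_inf (star_le S (le_max_left k (s.length + n)) _ (S.ps _))
      exact (List.take_prefix _ _).isInfix.trans (List.drop_suffix _ _).isInfix
    · rw [win_lim S (l + 1) s.length v.length (by rw [← hst]; simp)]
      rw [← hst, List.append_assoc, List.drop_left, List.take_left]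

end Pool.Agent.N374.AM.EMB
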